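import Pool.Agent.helper5.PR.SpecK

/-!
Project pr: (MP_a2a22c_al), module K-AC: traces of representations of dimension `n`.
-/

set_option autoImplicit false

namespace Pool.Agent.PR

open Matrix

theorem K_AC_tr {n : ℕ} {F : Type} [Field F] (x y M : Matrix (Fin n) (Fin n) F)
    (h : y * x = 1) : (x * M * y).trace = M.trace := by
  rw [Matrix.trace_mul_comm, ← Matrix.mul_assoc, h, Matrix.one_mul]

theorem K_AC_std {n : ℕ} {F : Type} [Field F] (γ : SLZ n) :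
    (stdM F γ).trace = (((γ : Matrix (Fin n) (Fin n) ℤ).trace : ℤ) : F) := by
  unfold stdM
  simp [Matrix.trace]

theorem K_AC_du {n : ℕ} {F : Type} [Field F] (γ : SLZ n) :
    (duM F γ).trace = (stdM F γ⁻¹).trace := by
  unfold duM
  exact Matrix.trace_transpose _

theorem K_AC (hREAL : K_REAL_stmt) (hFG : K_FG_stmt) (hCL : CL_stmt) : K_AC_stmt := by
  intro ℓ _ n hn Λ _ hΛ hQ r₁ r₂ h1 h2 hi1 hi2
  obtain ⟨s₁, s₂, g1, g2, g3, g4, g5⟩ := hREAL ℓ n (SLZ n) Λ (hFG n) hΛ hQ r₁ r₂ h1 h2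
  obtain ⟨x, y, hxy, hyx, h⟩ := hCL n hn (Om ℓ) s₁ (g1 hi1)
  obtain ⟨x', y', hxy', hyx', h'⟩ := hCL n hn (Om ℓ) s₂ (g2 hi2)
  have tr1 : (∀ γ, (s₁ γ).trace = (stdM (Om ℓ) γ).trace) ∨
      (∀ γ, (s₁ γ).trace = (stdM (Om ℓ) γ⁻¹).trace) := by
    rcases h with h | h
    · left; intro γ; rw [h, K_AC_tr _ _ _ hyx]
    · right; intro γ; rw [h, K_AC_tr _ _ _ hyx, K_AC_du]
  have tr2 : (∀ γ, (s₂ γ).trace = (stdM (Om ℓ) γ).trace) ∨
      (∀ γ, (s₂ γ).trace = (stdM (Om ℓ) γ⁻¹).trace) := by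
    rcases h' with h | h
    · left; intro γ; rw [h, K_AC_tr _ _ _ hyx']
    · right; intro γ; rw [h, K_AC_tr _ _ _ hyx', K_AC_du]
  refine ⟨g3 ?_, ?_⟩
  · intro γ
    rcases tr1 with h | h
    · rw [h, K_AC_std]
      exact ⟨(((γ : Matrix (Fin n) (Fin n) ℤ).trace : ℤ) : ℚ_[ℓ]), by simp⟩
    · rw [h, K_AC_std]
      exact ⟨((((γ⁻¹ : SLZ n) : Matrix (Fin n) (Fin n) ℤ).trace : ℤ) : ℚ_[ℓ]), by simp⟩
  · rcases tr1 with h | h <;> rcases tr2 with h' | h'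
    · exact Or.inl (g4 fun γ => by rw [h, h'])
    · exact Or.inr (g5 fun γ => by rw [h, h', inv_inv])
    · exact Or.inr (g5 fun γ => by rw [h, h'])
    · exact Or.inl (g4 fun γ => by rw [h, h'])

end Pool.Agent.PR
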