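import Pool.Agent.helper5.PR.SpecS
import Pool.Agent.helper67.PR.LTRP

/-!
Project pr: (MP_a2a22c_al), module S-JNT: joint transfer at all primes not dividing `m`.
-/

set_option autoImplicit false

namespace Pool.Agent.PR

open Matrix

theorem S_JNT_norm (hZI : S_ZI_stmt) {m : ℕ} (hm : 1 ≤ m) {q : ℕ} [hq : Fact q.Prime]
    (hqm : ¬ q ∣ m) (x : ZI m) : ‖((x : ℚ) : ℚ_[q])‖ ≤ 1 := by
  apply Padic.norm_rat_le_one
  intro h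
  obtain ⟨k, hk⟩ := (hZI m hm (x : ℚ)).1 x.2
  exact hqm (hq.out.dvd_of_dvd_pow (h.trans hk))

/-- the ring homomorphism `ℤ[1/m] → ℤ_q`, `q` not dividing `m` -/
noncomputable def S_JNT_phi (hZI : S_ZI_stmt) {m : ℕ} (hm : 1 ≤ m) {q : ℕ} [Fact q.Prime]
    (hqm : ¬ q ∣ m) : ZI m →+* ℤ_[q] where
  toFun x := ⟨((x : ℚ) : ℚ_[q]), S_JNT_norm hZI hm hqm x⟩
  map_one' := by
    apply Subtype.ext
    show (((1 : ZI m) : ℚ) : ℚ_[q]) = _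
    simp
  map_zero' := by
    apply Subtype.ext
    show (((0 : ZI m) : ℚ) : ℚ_[q]) = _
    simp
  map_mul' x y := by
    apply Subtype.ext
    show (((x * y : ZI m) : ℚ) : ℚ_[q]) = ((x : ℚ) : ℚ_[q]) * ((y : ℚ) : ℚ_[q])
    push_cast
    rfl
  map_add' x y := by
    apply Subtype.ext
    show (((x + y : ZI m) : ℚ) : ℚ_[q]) = ((x : ℚ) : ℚ_[q]) + ((y : ℚ) : ℚ_[q])
    push_cast
    rfl

theorem S_JNT_coe (hZI : S_ZI_stmt) {m : ℕ} (hm : 1 ≤ m) {q : ℕ} [Fact q.Prime]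
    (hqm : ¬ q ∣ m) (x : ZI m) : ((S_JNT_phi hZI hm hqm x : ℤ_[q]) : ℚ_[q]) = ((x : ℚ) : ℚ_[q]) :=
  rfl

/-- the homomorphism to `GL(n, ℤ_q)` -/
noncomputable def S_JNT_f (hZI : S_ZI_stmt) {m : ℕ} (hm : 1 ≤ m) {q : ℕ} [Fact q.Prime]
    (hqm : ¬ q ∣ m) {n : ℕ} : SLI n m →* GL (Fin n) ℤ_[q] :=
  (Matrix.SpecialLinearGroup.toGL).comp (Matrix.SpecialLinearGroup.map (S_JNT_phi hZI hm hqm))

theorem S_JNT_entry (hZI : S_ZI_stmt) {m : ℕ} (hm : 1 ≤ m) {q : ℕ} [Fact q.Prime]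
    (hqm : ¬ q ∣ m) {n : ℕ} (A : SLI n m) (i j : Fin n) :
    (((S_JNT_f hZI hm hqm A : Matrix (Fin n) (Fin n) ℤ_[q]) i j : ℤ_[q]) : ℚ_[q]) =
      ((ratM A i j : ℚ) : ℚ_[q]) := rfl

theorem S_JNT_inj (hZI : S_ZI_stmt) {m : ℕ} (hm : 1 ≤ m) {q : ℕ} [Fact q.Prime]
    (hqm : ¬ q ∣ m) {n : ℕ} :
    Function.Injective (S_JNT_f hZI hm hqm : SLI n m →* GL (Fin n) ℤ_[q]) := by
  intro A B h
  apply Subtype.ext
  ext i j
  have h1 : (((S_JNT_f hZI hm hqm A : Matrix (Fin n) (Fin n) ℤ_[q]) i j : ℤ_[q]) : ℚ_[q]) =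
      (((S_JNT_f hZI hm hqm B : Matrix (Fin n) (Fin n) ℤ_[q]) i j : ℤ_[q]) : ℚ_[q]) := by rw [h]
  rw [S_JNT_entry, S_JNT_entry] at h1
  have h2 : (ratM A i j : ℚ) = ratM B i j := by exact_mod_cast h1
  exact h2

theorem S_JNT (hSYS : S_SYS_stmt) (hTOP : LTOP_stmt) (hINF : LINF_stmt) (hLCZ : LCZ_stmt)
    (hFG : K_FG_stmt) (hZI : S_ZI_stmt) : S_JNT_stmt := by
  classical
  intro n hn Λ _ hQL m hm R hR
  let I : Type := {q : Nat.Primes // ¬ (q : ℕ) ∣ m}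
  have hc : ∀ q : I, CompactSpace (GL (Fin n) ℤ_[(q.1 : ℕ)]) := fun q => (hTOP n q.1).1
  have ht : ∀ q : I, TotallyDisconnectedSpace (GL (Fin n) ℤ_[(q.1 : ℕ)]) :=
    fun q => (hTOP n q.1).2.1
  let f : (q : I) → Λ →* GL (Fin n) ℤ_[(q.1 : ℕ)] := fun q => (S_JNT_f hZI hm q.2).comp R
  obtain ⟨S, h, h1, h2⟩ := hSYS (SLZ n) Λ (hFG n) hQL
    (∀ q : I, GL (Fin n) ℤ_[(q.1 : ℕ)]) (MonoidHom.pi f)
  have hopen : ∀ k : ℕ, k ≠ 0 → ∀ (B : ∀ q : I, GL (Fin n) ℤ_[(q.1 : ℕ)]),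
      IsOpen {A : ∀ q : I, GL (Fin n) ℤ_[(q.1 : ℕ)] | ∀ q : I, (q.1 : ℕ) ∣ k →
        MC k (A q : Matrix (Fin n) (Fin n) ℤ_[(q.1 : ℕ)]) (B q)} := by
    intro k hk B
    have hfin : {q : I | (q.1 : ℕ) ∣ k}.Finite :=
      Set.Finite.preimage (f := fun q : I => q.1) (Subtype.val_injective.injOn) (LTRP_fin k hk)
    have h3 := isOpen_set_pi hfin (fun q (_ : q ∈ {q : I | (q.1 : ℕ) ∣ k}) =>
      (hTOP n q.1).2.2 k hk (B q))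
    exact h3
  let hh : (q : I) → SLZ n →* GL (Fin n) ℤ_[(q.1 : ℕ)] := fun q => (Pi.evalMonoidHom _ q).comp h
  have hself : ∀ (k : ℕ) (q : I) (A : GL (Fin n) ℤ_[(q.1 : ℕ)]),
      MC k (A : Matrix (Fin n) (Fin n) ℤ_[(q.1 : ℕ)]) A := by
    intro k q A i j
    rw [sub_self]
    exact dvd_zero _
  have hinf : ∀ q : I, (Set.range (hh q)).Infinite := by
    intro q
    refine hINF n q.1 Λ (SLZ n) (f q) (hh q) ?_ ?_
    · intro k hk l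
      have ho1 : IsOpen {A : GL (Fin n) ℤ_[(q.1 : ℕ)] |
          MC k (A : Matrix (Fin n) (Fin n) ℤ_[(q.1 : ℕ)]) (f q l)} :=
        (hTOP n q.1).2.2 k hk (f q l)
      have hcont : Continuous (fun A : (∀ q : I, GL (Fin n) ℤ_[(q.1 : ℕ)]) => A q) :=
        continuous_apply q
      have ho : IsOpen {A : ∀ q : I, GL (Fin n) ℤ_[(q.1 : ℕ)] |
          MC k (A q : Matrix (Fin n) (Fin n) ℤ_[(q.1 : ℕ)]) (f q l)} :=
        ho1.preimage hcont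
      obtain ⟨γ, -, hγ⟩ := h1 l (FiniteIndexNormalSubgroup.ofSubgroup ⊤) _ ho (hself k q (f q l))
      exact ⟨γ, LTRP_symm hγ⟩
    · have e : Set.range (f q) = (S_JNT_f hZI hm q.2) '' Set.range R := by
        rw [← Set.range_comp]
        rfl
      rw [e]
      exact hR.image (S_JNT_inj hZI hm q.2).injOn
  have hcz : ∀ q : I, ∃ (X Y : Matrix (Fin n) (Fin n) ℤ_[(q.1 : ℕ)]) (s : Bool), X * Y = 1 ∧
      Y * X = 1 ∧ ∀ γ, (hh q γ : Matrix (Fin n) (Fin n) ℤ_[(q.1 : ℕ)]) =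
        X * sdM s ℤ_[(q.1 : ℕ)] γ * Y := fun q => hLCZ n hn q.1 (hh q) (hinf q)
  choose X Y s hXY hYX hs using hcz
  refine ⟨S, fun q => if hq : ¬ (q : ℕ) ∣ m then X ⟨q, hq⟩ else 1,
    fun q => if hq : ¬ (q : ℕ) ∣ m then Y ⟨q, hq⟩ else 1,
    fun q => if hq : ¬ (q : ℕ) ∣ m then s ⟨q, hq⟩ else true, ?_, ?_, ?_⟩
  · intro q
    by_cases hq : ¬ (q : ℕ) ∣ m
    · simp only [dif_pos hq]
      exact ⟨hXY _, hYX _⟩
    · simp only [dif_neg hq]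
      exact ⟨one_mul _, one_mul _⟩
  · intro l M k hk hkm
    obtain ⟨γ, hγ1, hγ2⟩ := h1 l M _ (hopen k (by omega) (fun q => f q l))
      (fun q _ => hself k q (f q l))
    refine ⟨γ, hγ1, fun q hqk => ?_⟩
    have hq : ¬ (q : ℕ) ∣ m := fun hqm => by
      have h3 := Nat.dvd_gcd hqk hqm
      rw [hkm] at h3
      exact q.2.one_lt.ne' (Nat.dvd_one.1 h3)
    refine ⟨(f ⟨q, hq⟩ l : Matrix (Fin n) (Fin n) ℤ_[(q : ℕ)]), fun i j => ?_, ?_⟩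
    · exact S_JNT_entry hZI hm hq (R l) i j
    · simp only [dif_pos hq]
      rw [← hs ⟨q, hq⟩ γ]
      exact LTRP_symm (hγ2 ⟨q, hq⟩ hqk)
  · intro γ M k hk hkm
    obtain ⟨l, hl1, hl2⟩ := h2 γ M _ (hopen k (by omega) (fun q => hh q γ))
      (fun q _ => hself k q (hh q γ))
    refine ⟨l, hl1, fun q hqk => ?_⟩
    have hq : ¬ (q : ℕ) ∣ m := fun hqm => by
      have h3 := Nat.dvd_gcd hqk hqm
      rw [hkm] at h3
      exact q.2.one_lt.ne' (Nat.dvd_one.1 h3)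
    refine ⟨(f ⟨q, hq⟩ l : Matrix (Fin n) (Fin n) ℤ_[(q : ℕ)]), fun i j => ?_, ?_⟩
    · exact S_JNT_entry hZI hm hq (R l) i j
    · simp only [dif_pos hq]
      rw [← hs ⟨q, hq⟩ γ]
      exact hl2 ⟨q, hq⟩ hqk

end Pool.Agent.PR
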